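import Pool.Agent.X194.DLM.Main

/-!
MP_6af4f0_al, Q1: the statement is **false** (with or without the Hilbert–Smith hypothesis).
There is a locally compact Hausdorff group `G`, not totally disconnected, which has no proper
dense subgroup (so it is densely locally minimal), and which contains a closed abelian subgroup
topologically isomorphic to the `3`-adic integers; this subgroup is not a Lie group.
-/

namespace Pool.Agent.Results.MP_6af4f0_al.DenselyLocallyMinimalWithPadic

open Pool.Agent.X194.DLM

theorem result :
    ∃ (G : Type) (_ : Group G) (_ : TopologicalSpace G) (_ : IsTopologicalGroup G),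
      T2Space G ∧ LocallyCompactSpace G ∧
      IsDenselyLocallyMinimal G ∧
      ¬ TotallyDisconnectedSpace G ∧
      (∀ H : Subgroup G, Dense (H : Set G) → H = ⊤) ∧
      ∃ A : Subgroup G, IsClosed (A : Set G) ∧ (∀ x ∈ A, ∀ y ∈ A, x * y = y * x) ∧
        Nonempty (Multiplicative ℤ_[3] ≃ₜ* A) ∧
        ∀ (E : Type) (_ : NormedAddCommGroup E) (_ : NormedSpace ℝ E),
          IsEmpty (ChartedSpace E A) := by
  refine ⟨GG, inferInstance, inferInstance, inferInstance, inferInstance, inferInstance, dlm,
    not_td, no_dense RR_two RR_units, A, A_closed, A_comm, ⟨A_iso⟩, ?_⟩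
  intro E _ _
  exact ⟨fun h => A_not_manifold E⟩

end Pool.Agent.Results.MP_6af4f0_al.DenselyLocallyMinimalWithPadic
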